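import Pool.Agent.H474.RZ.Stm

set_option autoImplicit false

open Complex MeasureTheory Filter Topology
open Pool.Agent.H474.RZ

namespace Pool.Agent.H289.RZ.SUM

/-- `u ^ k e^{-u} ≤ k!` -/
theorem pow_exp (k : ℕ) (u : ℝ) (hu : 0 ≤ u) : u ^ k * Real.exp (-u) ≤ (k.factorial : ℝ) := by
  have h := Real.pow_div_factorial_le_exp u hu k
  rw [div_le_iff₀ (by positivity)] at h
  rw [Real.exp_neg, ← div_eq_mul_inv, div_le_iff₀ (Real.exp_pos u)]
  linarith

theorem bound (p : ℝ) (hp : 0 ≤ p) : ∃ K : ℝ, 0 < K ∧ ∀ y : ℝ, 0 < y →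
    y ^ p * Real.exp (-y ^ 2) ≤ K / (1 + y) ^ 2 := by
  obtain ⟨N, hN⟩ := exists_nat_ge p
  refine ⟨2 * (4 + (N.factorial : ℝ) + ((N + 1).factorial : ℝ)), by positivity, fun y hy => ?_⟩
  have h1 : y ^ p ≤ 2 + (y ^ 2) ^ N := by
    have h3 : 0 ≤ (y ^ 2) ^ N := by positivity
    rcases le_total y 1 with h2 | h2
    · have := Real.rpow_le_one hy.le h2 hp
      linarith
    · have h4 : y ^ p ≤ y ^ (N : ℝ) := Real.rpow_le_rpow_of_exponent_le h2 hN
      rw [Real.rpow_natCast] at h4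
      have h5 : y ^ N ≤ (y ^ 2) ^ N := pow_le_pow_left₀ hy.le (by nlinarith) N
      linarith
  have h2 : (1 + y) ^ 2 ≤ 2 * (1 + y ^ 2) := by nlinarith [sq_nonneg (1 - y)]
  rw [le_div_iff₀ (by positivity)]
  have hE := Real.exp_pos (-y ^ 2)
  have e0 := pow_exp 0 (y ^ 2) (by positivity)
  have e1 := pow_exp 1 (y ^ 2) (by positivity)
  have e2 := pow_exp N (y ^ 2) (by positivity)
  have e3 := pow_exp (N + 1) (y ^ 2) (by positivity)
  simp only [pow_zero, one_mul, Nat.factorial_zero, Nat.cast_one, pow_one, Nat.factorial_one]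
    at e0 e1
  calc y ^ p * Real.exp (-y ^ 2) * (1 + y) ^ 2
      ≤ (2 + (y ^ 2) ^ N) * Real.exp (-y ^ 2) * (2 * (1 + y ^ 2)) := by gcongr
    _ = 2 * (2 * Real.exp (-y ^ 2) + 2 * (y ^ 2 * Real.exp (-y ^ 2)) +
        (y ^ 2) ^ N * Real.exp (-y ^ 2) + (y ^ 2) ^ (N + 1) * Real.exp (-y ^ 2)) := by ring
    _ ≤ _ := by linarith

/-- telescoping series -/
theorem tele (h : ℝ) (hh : 0 < h) :
    HasSum (fun n : ℕ => 1 / (1 + n * h) - 1 / (1 + ((n : ℝ) + 1) * h)) 1 := by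
  have h1 : Tendsto (fun n : ℕ => 1 / (1 + (n : ℝ) * h)) atTop (𝓝 0) := by
    apply Tendsto.div_atTop tendsto_const_nhds
    apply tendsto_atTop_add_const_left
    exact Tendsto.atTop_mul_const hh tendsto_natCast_atTop_atTop
  have hnn : ∀ n : ℕ, 0 ≤ 1 / (1 + n * h) - 1 / (1 + ((n : ℝ) + 1) * h) := by
    intro n
    rw [sub_nonneg]
    apply one_div_le_one_div_of_le (by positivity)
    nlinarith
  rw [hasSum_iff_tendsto_nat_of_nonneg hnn]
  have h2 : ∀ n : ℕ, ∑ i ∈ Finset.range n, (1 / (1 + (i : ℝ) * h) - 1 / (1 + ((i : ℝ) + 1) * h)) =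
      1 - 1 / (1 + (n : ℝ) * h) := by
    intro n
    induction n with
    | zero => simp
    | succ n ih =>
      rw [Finset.sum_range_succ, ih]
      push_cast
      ring
  simp only [h2]
  simpa using tendsto_const_nhds.sub h1

theorem part1 (p : ℝ) (hp : 0 ≤ p) : ∃ C : ℝ, 0 < C ∧ ∀ x : ℝ, 0 < x →
    Summable (fun n : ℕ => ((n : ℝ) + 1) ^ p * Real.exp (-(((n : ℝ) + 1) ^ 2 * x))) ∧
      Dg p x ≤ C * x ^ (-((p + 1) / 2)) := by
  obtain ⟨K, hK, hb⟩ := bound p hp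
  refine ⟨K, hK, fun x hx => ?_⟩
  set h := Real.sqrt x with hh
  have hpos : 0 < h := Real.sqrt_pos.2 hx
  have hx2 : x = h ^ 2 := (Real.sq_sqrt hx.le).symm
  have hterm : ∀ n : ℕ, ((n : ℝ) + 1) ^ p * Real.exp (-(((n : ℝ) + 1) ^ 2 * x)) ≤
      (h ^ p)⁻¹ * (K / h) * (1 / (1 + n * h) - 1 / (1 + ((n : ℝ) + 1) * h)) := by
    intro n
    have h1 := hb (((n : ℝ) + 1) * h) (by positivity)
    rw [Real.mul_rpow (by positivity) hpos.le] at h1
    have h2 : -(((n : ℝ) + 1) * h) ^ 2 = -(((n : ℝ) + 1) ^ 2 * x) := by rw [hx2]; ring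
    rw [h2] at h1
    have h3 : K / (1 + ((n : ℝ) + 1) * h) ^ 2 ≤
        (K / h) * (1 / (1 + n * h) - 1 / (1 + ((n : ℝ) + 1) * h)) := by
      have h4 : (K / h) * (1 / (1 + n * h) - 1 / (1 + ((n : ℝ) + 1) * h)) =
          K / ((1 + n * h) * (1 + ((n : ℝ) + 1) * h)) := by
        have : (1 + n * h) ≠ 0 := by positivity
        have : (1 + ((n : ℝ) + 1) * h) ≠ 0 := by positivity
        field_simp
        ring
      rw [h4]
      apply div_le_div_of_nonneg_left hK.le (by positivity)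
      rw [sq]
      apply mul_le_mul_of_nonneg_right _ (by positivity)
      nlinarith
    have h5 := h1.trans h3
    have hhp : 0 < h ^ p := Real.rpow_pos_of_pos hpos p
    calc ((n : ℝ) + 1) ^ p * Real.exp (-(((n : ℝ) + 1) ^ 2 * x))
        = (h ^ p)⁻¹ * (((n : ℝ) + 1) ^ p * h ^ p * Real.exp (-(((n : ℝ) + 1) ^ 2 * x))) := by
          field_simp
      _ ≤ (h ^ p)⁻¹ * ((K / h) * (1 / (1 + n * h) - 1 / (1 + ((n : ℝ) + 1) * h))) :=
          mul_le_mul_of_nonneg_left h5 (by positivity)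
      _ = _ := by ring
  have hs := (tele h hpos).mul_left ((h ^ p)⁻¹ * (K / h))
  have hnn : ∀ n : ℕ, 0 ≤ ((n : ℝ) + 1) ^ p * Real.exp (-(((n : ℝ) + 1) ^ 2 * x)) := fun n => by
    positivity
  have hsum : Summable (fun n : ℕ => ((n : ℝ) + 1) ^ p * Real.exp (-(((n : ℝ) + 1) ^ 2 * x))) :=
    Summable.of_nonneg_of_le hnn hterm hs.summable
  refine ⟨hsum, ?_⟩
  unfold Dg
  refine (hsum.tsum_le_tsum hterm hs.summable).trans ?_
  rw [hs.tsum_eq]
  have e : x ^ (-((p + 1) / 2)) = (h ^ p)⁻¹ * h⁻¹ := by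
    have e1 : h ^ (2 : ℝ) = x := by
      rw [hx2]; exact_mod_cast Real.rpow_natCast h 2
    rw [← e1, ← Real.rpow_mul hpos.le, ← Real.rpow_neg hpos.le, ← Real.rpow_neg_one h,
      ← Real.rpow_add hpos]
    congr 1
    ring
  rw [e]
  apply le_of_eq
  field_simp

theorem t_SUM : S_SUM := by
  refine ⟨part1, Real.exp (-100), Real.exp_pos _, fun x hx hx10 => ?_⟩
  obtain ⟨C, -, hC⟩ := part1 8 (by norm_num)
  have hsum := (hC x hx).1
  set h := Real.sqrt x with hh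
  have hpos : 0 < h := Real.sqrt_pos.2 hx
  have hx2 : x = h ^ 2 := (Real.sq_sqrt hx.le).symm
  have h4 : h ≤ 4 := by
    rw [hh]
    apply Real.sqrt_le_iff.2
    constructor <;> norm_num
    linarith
  set m := ⌈1 / h⌉₊ with hm
  have hm1 : 1 / h ≤ m := Nat.le_ceil _
  have hm2 : (m : ℝ) < 1 / h + 1 := Nat.ceil_lt_add_one (by positivity)
  have hm0 : 0 < m := Nat.ceil_pos.2 (by positivity)
  have hmh : (m : ℝ) * h ≤ 5 := by
    have : (m : ℝ) * h ≤ (1 / h + 1) * h := mul_le_mul_of_nonneg_right hm2.le hpos.le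
    have e : (1 / h + 1) * h = 1 + h := by field_simp
    linarith
  have hterm : ∀ n ∈ Finset.Ico (m - 1) (2 * m - 1),
      (1 / h) ^ 8 * Real.exp (-100) ≤
        ((n : ℝ) + 1) ^ (8 : ℝ) * Real.exp (-(((n : ℝ) + 1) ^ 2 * x)) := by
    intro n hn
    rw [Finset.mem_Ico] at hn
    have h1 : m ≤ n + 1 := by omega
    have h2 : n + 1 ≤ 2 * m := by omega
    have h1' : (m : ℝ) ≤ (n : ℝ) + 1 := by exact_mod_cast h1
    have h2' : (n : ℝ) + 1 ≤ 2 * m := by exact_mod_cast h2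
    have e8 : ((n : ℝ) + 1) ^ (8 : ℝ) = ((n : ℝ) + 1) ^ 8 := by
      exact_mod_cast Real.rpow_natCast ((n : ℝ) + 1) 8
    rw [e8]
    apply mul_le_mul
    · exact pow_le_pow_left₀ (by positivity) (hm1.trans h1') 8
    · apply Real.exp_le_exp.2
      have h3 : (((n : ℝ) + 1) * h) ≤ 10 := by
        have : ((n : ℝ) + 1) * h ≤ 2 * m * h := mul_le_mul_of_nonneg_right h2' hpos.le
        linarith
      have h5 : (((n : ℝ) + 1) * h) ^ 2 ≤ 10 ^ 2 := pow_le_pow_left₀ (by positivity) h3 2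
      have e : ((n : ℝ) + 1) ^ 2 * x = (((n : ℝ) + 1) * h) ^ 2 := by rw [hx2]; ring
      rw [e]
      linarith
    · positivity
    · positivity
  have hfin : (m : ℝ) * ((1 / h) ^ 8 * Real.exp (-100)) ≤ Dg 8 x := by
    unfold Dg
    have h1 := Summable.sum_le_tsum (Finset.Ico (m - 1) (2 * m - 1)) (fun n _ => by positivity) hsum
    refine le_trans ?_ h1
    have h2 := Finset.card_nsmul_le_sum _ _ _ hterm
    rw [Nat.card_Ico, nsmul_eq_mul] at h2
    have e : 2 * m - 1 - (m - 1) = m := by omega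
    rw [e] at h2
    exact h2
  refine le_trans ?_ hfin
  have e : x ^ (-(9 / 2) : ℝ) = (1 / h) ^ 9 := by
    have e1 : h ^ (2 : ℝ) = x := by
      rw [hx2]; exact_mod_cast Real.rpow_natCast h 2
    have e2 : (1 / h) ^ 9 = (h ^ (9 : ℝ))⁻¹ := by
      rw [one_div, inv_pow]
      congr 1
      exact_mod_cast (Real.rpow_natCast h 9).symm
    rw [e2, ← e1, ← Real.rpow_mul hpos.le, ← Real.rpow_neg hpos.le]
    congr 1
    norm_num
  rw [e]
  have h5 : (1 / h) * ((1 / h) ^ 8 * Real.exp (-100)) ≤ m * ((1 / h) ^ 8 * Real.exp (-100)) :=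
    mul_le_mul_of_nonneg_right hm1 (by positivity)
  calc Real.exp (-100) * (1 / h) ^ 9 = (1 / h) * ((1 / h) ^ 8 * Real.exp (-100)) := by ring
    _ ≤ _ := h5

end Pool.Agent.H289.RZ.SUM
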